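import Pool.Agent.Y548.GD.Fin

/-!
# Chains of normal subgroups with finite or central factors
-/

set_option autoImplicit false

namespace Pool.Agent.Y548.GD

universe u

open scoped commutatorElement

open Pool.Agent.W385.GD

/-- A finite step. -/
theorem gd_fin_step {H : Type u} [Group H] [Group.FG H] (M N : Subgroup H) [M.Normal] [N.Normal]
    (hMN : M ≤ N) (hfin : M.relIndex N ≠ 0) (h : GraphicallyDiscrete (H ⧸ N)) :
    GraphicallyDiscrete (H ⧸ M) := by
  have hFI : (M.subgroupOf N).FiniteIndex := ⟨hfin⟩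
  have hF : Finite (N ⧸ M.subgroupOf N) := Subgroup.finite_quotient_of_finiteIndex
  let f : N ⧸ M.subgroupOf N → H ⧸ M := QuotientGroup.map (M.subgroupOf N) M N.subtype
    (fun x hx => hx)
  refine gd_of_finite (Group.fg_of_surjective (f := QuotientGroup.mk' M)
    (QuotientGroup.mk'_surjective _)) (N.map (QuotientGroup.mk' M)) ?_
    (gd_of_equiv (QuotientGroup.quotientQuotientEquivQuotient M N hMN).symm h)
  refine (Set.finite_range f).subset ?_
  rintro _ ⟨n, hn, rfl⟩
  exact ⟨((⟨n, hn⟩ : N) : N ⧸ M.subgroupOf N), rfl⟩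

/-- A normal subgroup of finite index in a normally finitely generated subgroup of a finitely
generated group is normally finitely generated. -/
theorem fin_rel {Q : Type u} [Group Q] [Group.FG Q] (M N : Subgroup Q) [M.Normal] [N.Normal]
    (hMN : M ≤ N) (hfin : M.relIndex N ≠ 0) (T : Set Q) (hT : T.Finite)
    (hTN : Subgroup.normalClosure T = N) :
    ∃ T' : Set Q, T'.Finite ∧ Subgroup.normalClosure T' = M := by
  classical
  have hFI : (M.subgroupOf N).FiniteIndex := ⟨hfin⟩
  have hF : Finite (N ⧸ M.subgroupOf N) := Subgroup.finite_quotient_of_finiteIndex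
  let f : N ⧸ M.subgroupOf N → Q ⧸ M := QuotientGroup.map (M.subgroupOf N) M N.subtype
    (fun x hx => hx)
  set π := QuotientGroup.mk' M with hπ
  set A : Set (Q ⧸ M) := (N.map π : Set (Q ⧸ M)) with hA
  have hAfin : A.Finite := by
    refine (Set.finite_range f).subset ?_
    rintro _ ⟨n, hn, rfl⟩
    exact ⟨((⟨n, hn⟩ : N) : N ⧸ M.subgroupOf N), rfl⟩
  have hsur : ∀ a : Q ⧸ M, ∃ x, π x = a := QuotientGroup.mk'_surjective M
  choose r hr using hsur
  have hπ1 : ∀ x, π x = 1 ↔ x ∈ M := fun x => QuotientGroup.eq_one_iff x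
  obtain ⟨X, hX⟩ := Group.fg_def.1 (inferInstance : Group.FG Q)
  set Y : Set Q := (X : Set Q) ∪ (fun x => x⁻¹) '' (X : Set Q) with hY
  have hYfin : Y.Finite := X.finite_toSet.union (X.finite_toSet.image _)
  set T' : Set Q :=
    ((fun p : Q × (Q ⧸ M) => p.1 * r p.2 * p.1⁻¹ * (r (π p.1 * p.2 * (π p.1)⁻¹))⁻¹) '' (Y ×ˢ A)) ∪
    (((fun p : (Q ⧸ M) × (Q ⧸ M) => r p.1 * r p.2 * (r (p.1 * p.2))⁻¹) '' (A ×ˢ A)) ∪
      ((fun t => t * (r (π t))⁻¹) '' T)) with hT'
  have hT'fin : T'.Finite := ((hYfin.prod hAfin).image _).union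
    (((hAfin.prod hAfin).image _).union (hT.image _))
  have hTsub : T ⊆ N := by rw [← hTN]; exact Subgroup.subset_normalClosure
  refine ⟨T', hT'fin, le_antisymm ?_ ?_⟩
  · refine Subgroup.normalClosure_le_normal ?_
    rintro _ (⟨⟨x, a⟩, _, rfl⟩ | ⟨⟨a, b⟩, _, rfl⟩ | ⟨t, _, rfl⟩)
    · change _ ∈ M
      rw [← hπ1]
      simp only [map_mul, map_inv, hr]
      group
    · change _ ∈ M
      rw [← hπ1]
      simp only [map_mul, map_inv, hr]
      group
    · change _ ∈ M
      rw [← hπ1]
      simp only [map_mul, map_inv, hr]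
      group
  · set R := Subgroup.normalClosure T' with hR
    set ν := QuotientGroup.mk' R with hν
    have hν1 : ∀ x y : Q, x * y⁻¹ ∈ R → ν x = ν y := by
      intro x y hxy
      have h1 : ν (x * y⁻¹) = 1 := (QuotientGroup.eq_one_iff _).2 hxy
      rw [map_mul, map_inv, mul_inv_eq_one] at h1
      exact h1
    have hν2 : ∀ x : Q, ν x = 1 → x ∈ R := fun x hx => (QuotientGroup.eq_one_iff x).1 hx
    have hmulA : ∀ a ∈ A, ∀ b ∈ A, ν (r a) * ν (r b) = ν (r (a * b)) := by
      intro a ha b hb
      rw [← map_mul]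
      apply hν1
      exact Subgroup.subset_normalClosure (Or.inr (Or.inl ⟨(a, b), ⟨ha, hb⟩, rfl⟩))
    have hconjA : ∀ x ∈ Y, ∀ a ∈ A, ν x * ν (r a) * (ν x)⁻¹ = ν (r (π x * a * (π x)⁻¹)) := by
      intro x hx a ha
      rw [← map_mul, ← map_inv, ← map_mul]
      apply hν1
      exact Subgroup.subset_normalClosure (Or.inl ⟨(x, a), ⟨hx, ha⟩, rfl⟩)
    have h1A : (1 : Q ⧸ M) ∈ A := (N.map π).one_mem
    have hone : ν (r 1) = 1 := by
      have h1 := hmulA 1 h1A 1 h1A
      rw [mul_one] at h1
      exact mul_eq_left.1 h1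
    have hmemA : ∀ n ∈ N, π n ∈ A := fun n hn => ⟨n, hn, rfl⟩
    let S : Subgroup Q :=
      { carrier := {n | n ∈ N ∧ ν n = ν (r (π n))}
        one_mem' := ⟨N.one_mem, by rw [map_one, map_one, hone]⟩
        mul_mem' := by
          rintro a b ⟨ha, ha'⟩ ⟨hb, hb'⟩
          refine ⟨N.mul_mem ha hb, ?_⟩
          rw [map_mul, map_mul, ha', hb', hmulA _ (hmemA a ha) _ (hmemA b hb)]
        inv_mem' := by
          rintro a ⟨ha, ha'⟩
          refine ⟨N.inv_mem ha, ?_⟩
          rw [map_inv, inv_eq_iff_mul_eq_one, ha',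
            hmulA _ (hmemA a ha) _ (hmemA _ (N.inv_mem ha)), ← map_mul, mul_inv_cancel,
            map_one, hone] }
    have hSY : ∀ x ∈ Y, ∀ n ∈ S, x * n * x⁻¹ ∈ S := by
      rintro x hx n ⟨hn, hn'⟩
      refine ⟨(inferInstance : N.Normal).conj_mem n hn x, ?_⟩
      rw [map_mul, map_mul, map_inv, hn', hconjA x hx _ (hmemA n hn), map_mul, map_mul, map_inv]
    have hSn : S.Normal := by
      refine ⟨fun n hn g => ?_⟩
      have hg : g ∈ Subgroup.closure (X : Set Q) := by rw [hX]; exact Subgroup.mem_top g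
      have key : ∀ g ∈ Subgroup.closure (X : Set Q), ∀ n ∈ S,
          g * n * g⁻¹ ∈ S ∧ g⁻¹ * n * g ∈ S := by
        intro g hg
        induction hg using Subgroup.closure_induction with
        | mem x hx =>
          intro n hn
          refine ⟨hSY x (Or.inl hx) n hn, ?_⟩
          have := hSY x⁻¹ (Or.inr ⟨x, hx, rfl⟩) n hn
          rwa [inv_inv] at this
        | one => intro n hn; simpa using hn
        | mul a b _ _ ha hb =>
          intro n hn
          constructor
          · have := (ha _ (hb n hn).1).1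
            have e : a * b * n * (a * b)⁻¹ = a * (b * n * b⁻¹) * a⁻¹ := by group
            rwa [e]
          · have := (hb _ (ha n hn).2).2
            have e : (a * b)⁻¹ * n * (a * b) = b⁻¹ * (a⁻¹ * n * a) * b := by group
            rwa [e]
        | inv a _ ha =>
          intro n hn
          rw [inv_inv]
          exact ⟨(ha n hn).2, (ha n hn).1⟩
      exact (key g hg n hn).1
    have hNS : N ≤ S := by
      rw [← hTN]
      refine Subgroup.normalClosure_le_normal ?_
      intro t ht
      refine ⟨hTsub ht, ?_⟩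
      apply hν1
      exact Subgroup.subset_normalClosure (Or.inr (Or.inr ⟨t, ht, rfl⟩))
    intro m hm
    obtain ⟨_, h1⟩ := hNS (hMN hm)
    rw [(hπ1 m).2 hm, hone] at h1
    exact hν2 m h1

/-- Chains. -/
theorem gd_chain {H : Type u} [Group H] [Group.FG H] (k : ℕ) :
    ∀ (N : ℕ → Subgroup H) [∀ i, (N i).Normal], N 0 = ⊥ → (∀ i < k, N i ≤ N (i + 1)) →
    (∀ i < k, ⁅N (i + 1), (⊤ : Subgroup H)⁆ ≤ N i ∨ (N i).relIndex (N (i + 1)) ≠ 0) →
    ∀ T : Set H, T.Finite → Subgroup.normalClosure T = N k →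
    GraphicallyDiscrete (H ⧸ N k) → GraphicallyDiscrete H := by
  induction k with
  | zero =>
    intro N _ h0 _ _ T _ _ h
    refine gd_of_equiv ?_ h
    exact (QuotientGroup.quotientMulEquivOfEq h0).trans (QuotientGroup.quotientBot (G := H))
  | succ k ih =>
    intro N _ h0 hmono hstep T hT hTN h
    have hk := hmono k (Nat.lt_succ_self k)
    rcases hstep k (Nat.lt_succ_self k) with hc | hf
    · obtain ⟨T', hT', hTM⟩ := fin_comm (N (k + 1)) T hT hTN
      set M := ⁅N (k + 1), (⊤ : Subgroup H)⁆ with hM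
      have hMn : M.Normal := inferInstance
      have hNn : ∀ i, (N i ⊓ M).Normal := fun i => inferInstance
      have hkM : N k ⊓ M = M := inf_eq_right.2 hc
      refine @ih (fun i => N i ⊓ M) hNn (by rw [h0]; exact bot_inf_eq M)
        (fun i hi => inf_le_inf_right M (hmono i (Nat.lt_succ_of_lt hi))) ?_ T' hT'
        (hTM.trans hkM.symm) ?_
      · intro i hi
        rcases hstep i (Nat.lt_succ_of_lt hi) with h1 | h1
        · left
          refine le_inf ?_ ?_
          · exact (Subgroup.commutator_mono inf_le_left le_rfl).trans h1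
          · exact (Subgroup.commutator_mono inf_le_right le_rfl).trans
              (Subgroup.commutator_le_left M ⊤)
        · right
          refine Subgroup.relIndex_inf_ne_zero ?_ ?_
          · exact fun h2 => h1 (Subgroup.relIndex_eq_zero_of_le_right inf_le_left h2)
          · rw [Subgroup.relIndex_eq_one.2 inf_le_right]
            exact one_ne_zero
      · refine gd_of_equiv (QuotientGroup.quotientMulEquivOfEq hkM.symm) ?_
        exact gd_step M (N (k + 1)) (hc.trans hk) T hT hTN le_rfl h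
    · obtain ⟨T', hT', hTM⟩ := fin_rel (N k) (N (k + 1)) hk hf T hT hTN
      exact ih N h0 (fun i hi => hmono i (Nat.lt_succ_of_lt hi))
        (fun i hi => hstep i (Nat.lt_succ_of_lt hi)) T' hT' hTM
        (gd_fin_step (N k) (N (k + 1)) hk hf h)

end Pool.Agent.Y548.GD
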