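import Pool.Agent.Y548.GD.Tr2
import Pool.Agent.Y548.GD.Chain

/-!
# Extensions of graphically discrete groups by virtually central torsion-free abelian kernels
-/

set_option autoImplicit false

namespace Pool.Agent.Y548.GD

universe u

open Pool.Agent.W385.GD

theorem dsc_of_abelian {G : Type*} [Group G] {A : Type*} [CommGroup A] (j : A →* G)
    (hj : Function.Injective j) [hR : j.range.Normal] (S : Set A) (hS : S.Finite)
    (hSc : Subgroup.closure S = ⊤)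
    (hSn : ∀ g : G, ∀ s ∈ S, ∃ s' ∈ S, g⁻¹ * j s * g = j s')
    (htf : ∀ (a : A) (n : ℕ), n ≠ 0 → a ^ n = 1 → a = 1)
    (hgd : ∀ (W : Type) (Y : SimpleGraph W), Y.Connected → (∀ v, (Y.neighborSet v).Finite) →
      ∀ σ : (G ⧸ j.range) →* (Y ≃g Y), IsGeometric Y σ → Dsc Y)
    (V : Type) (X : SimpleGraph V) (hX : X.Connected) (hlf : ∀ v, (X.neighborSet v).Finite)
    (ρ : G →* (X ≃g X)) (hgeo : IsGeometric X ρ) : Dsc X := by
  classical
  obtain ⟨F, hF, hGF⟩ := exists_fund hX hlf hgeo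
  have hjn : ∀ (g : G) (a : A), ∃ a' : A, j a' = g * j a * g⁻¹ := fun g a =>
    hR.conj_mem (j a) ⟨a, rfl⟩ g
  obtain ⟨R, hR'⟩ := disp ρ hX F hF hGF ((fun s => ρ (j s)) '' S) (by
      rintro _ ⟨s, hs, rfl⟩ g
      obtain ⟨s', hs', h⟩ := hSn g s hs
      refine ⟨s', hs', ?_⟩
      simp only
      rw [← h, map_mul, map_mul, map_inv]) (by
      intro f _
      refine (hS.image (fun s => ρ (j s) • f)).subset ?_
      rintro _ ⟨_, ⟨s, hs, rfl⟩, rfl⟩
      exact ⟨s, hs, rfl⟩)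
  have hRS : ∀ s ∈ S, ∀ x, X.dist x (ρ (j s) • x) ≤ R := fun s hs x => hR' _ ⟨s, hs, rfl⟩ x
  set P : Subgroup (X ≃g X) := PP X (2 * R) with hPdef
  have hPn : P.Normal := PP_normal hX _
  have hPo : ∀ x : V, {y | ∃ φ ∈ P, y = φ • x}.Finite := fun x => PP_orbit hX hlf _ x
  set π := QuotientGroup.mk' P with hπ
  have hπP : ∀ x : X ≃g X, π x = 1 ↔ x ∈ P := fun x => QuotientGroup.eq_one_iff x
  -- the centraliser of `A` modulo `P`
  set L₁ : Subgroup (X ≃g X) :=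
    (Subgroup.centralizer (Set.range (fun a : A => π (ρ (j a))))).comap π with hL₁
  have memL₁ : ∀ l : X ≃g X, l ∈ L₁ ↔ ∀ a : A, π (ρ (j a)) * π l = π l * π (ρ (j a)) := by
    intro l
    rw [hL₁, Subgroup.mem_comap, Subgroup.mem_centralizer_iff]
    constructor
    · intro h a
      exact h _ ⟨a, rfl⟩
    · rintro h _ ⟨a, rfl⟩
      exact h a
  have memL₁' : ∀ l : X ≃g X, (∀ s ∈ S, π (ρ (j s)) * π l = π l * π (ρ (j s))) → l ∈ L₁ := by
    intro l h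
    rw [memL₁]
    intro a
    have h1 : Subgroup.closure S ≤
        (Subgroup.centralizer {π l}).comap ((π.comp ρ).comp j) := by
      rw [Subgroup.closure_le]
      intro s hs
      change π (ρ (j s)) ∈ Subgroup.centralizer {π l}
      rw [Subgroup.mem_centralizer_singleton_iff]
      exact h s hs
    rw [hSc] at h1
    have h2 := h1 (Subgroup.mem_top a)
    rw [Subgroup.mem_comap, Subgroup.mem_centralizer_singleton_iff] at h2
    exact h2
  -- the group generated by `A` and `P`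
  set N : Subgroup (X ≃g X) := (((π.comp ρ).comp j).range).comap π with hNdef
  have memN : ∀ n : X ≃g X, n ∈ N ↔ ∃ a : A, (ρ (j a))⁻¹ * n ∈ P := by
    intro n
    rw [hNdef, Subgroup.mem_comap]
    constructor
    · rintro ⟨a, ha⟩
      refine ⟨a, ?_⟩
      rw [← hπP, map_mul, map_inv, inv_mul_eq_one]
      exact ha
    · rintro ⟨a, ha⟩
      refine ⟨a, ?_⟩
      rw [← hπP, map_mul, map_inv, inv_mul_eq_one] at ha
      exact ha
  have hAN : ∀ a : A, ρ (j a) ∈ N := fun a => (memN _).2 ⟨a, by simp [P.one_mem]⟩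
  have hPN' : ∀ p ∈ P, p ∈ N := fun p hp => (memN p).2 ⟨1, by simpa using hp⟩
  set L₂ : Subgroup (X ≃g X) := Subgroup.normalizer (N : Set (X ≃g X)) with hL₂
  have hN : ∀ φ ∈ L₂, ∀ n ∈ N, φ * n * φ⁻¹ ∈ N := by
    intro φ hφ n hn
    exact (Subgroup.mem_normalizer_iff.1 hφ n).1 hn
  have mkL₂ : ∀ φ : X ≃g X, (∀ n ∈ N, φ * n * φ⁻¹ ∈ N) → (∀ n ∈ N, φ⁻¹ * n * φ ∈ N) →
      φ ∈ L₂ := by
    intro φ h1 h2
    rw [hL₂, Subgroup.mem_normalizer_iff]
    intro n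
    refine ⟨h1 n, fun h => ?_⟩
    have := h2 _ h
    have e : φ⁻¹ * (φ * n * φ⁻¹) * φ = n := by group
    rwa [e] at this
  have hρN : ∀ g : G, ∀ n ∈ N, ρ g * n * (ρ g)⁻¹ ∈ N := by
    intro g n hn
    obtain ⟨a, ha⟩ := (memN n).1 hn
    obtain ⟨a', ha'⟩ := hjn g a
    refine (memN _).2 ⟨a', ?_⟩
    have h1 := PP_conj hX ha (ρ g)
    have e : (ρ (j a'))⁻¹ * (ρ g * n * (ρ g)⁻¹) = ρ g * ((ρ (j a))⁻¹ * n) * (ρ g)⁻¹ := by
      rw [ha', map_mul, map_mul, map_inv]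
      group
    rw [e]
    exact h1
  have hρL : ∀ g : G, ρ g ∈ L₂ := by
    intro g
    refine mkL₂ _ (hρN g) ?_
    intro n hn
    have := hρN g⁻¹ n hn
    rwa [map_inv, inv_inv] at this
  have hL₁N : ∀ l ∈ L₁, ∀ n ∈ N, l * n * l⁻¹ ∈ N := by
    intro l hl n hn
    obtain ⟨a, ha⟩ := hn
    refine ⟨a, ?_⟩
    have h1 := (memL₁ l).1 hl a
    change π (ρ (j a)) = π n at ha
    change π (ρ (j a)) = π (l * n * l⁻¹)
    rw [map_mul, map_mul, ← ha, map_inv, ← h1, mul_inv_cancel_right]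
  have hL₁₂ : L₁ ≤ L₂ := by
    intro l hl
    refine mkL₂ l (hL₁N l hl) ?_
    intro n hn
    have := hL₁N l⁻¹ (L₁.inv_mem hl) n hn
    rwa [inv_inv] at this
  have hAL₁ : ∀ a : A, ρ (j a) ∈ L₁ := by
    intro a
    rw [memL₁]
    intro b
    rw [← map_mul, ← map_mul, ← map_mul, ← map_mul, ← map_mul, ← map_mul, mul_comm]
  have hPL₁ : ∀ p ∈ P, p ∈ L₁ := by
    intro p hp
    rw [memL₁]
    intro b
    rw [(hπP p).2 hp, mul_one, one_mul]
  set θ := quotHom N L₂ hN with hθ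
  have hθorb : ∀ (l : L₂) (x : V), θ l (orb N x) = orb N ((l : X ≃g X) • x) := fun l x => rfl
  set θ₀ := quotHom P ⊤ (fun φ _ n hn => PP_conj hX hn φ) with hθ₀
  let θP : (X ≃g X) →* (quotGraph P ≃g quotGraph P) :=
    θ₀.comp (Subgroup.topEquiv.symm : (X ≃g X) ≃* (⊤ : Subgroup (X ≃g X))).toMonoidHom
  have hθPorb : ∀ (l : X ≃g X) (x : V), θP l (orb P x) = orb P (l • x) := fun l x => rfl
  -- the action of the quotient group
  let ρ₁ : G →* L₂ := ρ.codRestrict L₂ hρL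
  have hker : ∀ g ∈ j.range, (θ.comp ρ₁) g = 1 := by
    rintro _ ⟨b, rfl⟩
    apply RelIso.ext
    intro a
    obtain ⟨x, rfl⟩ := orb_surj N a
    show orb N (ρ (j b) • x) = orb N x
    rw [orb_eq_iff]
    exact ⟨ρ (j b), hAN b, rfl⟩
  let σ : (G ⧸ j.range) →* (quotGraph N ≃g quotGraph N) :=
    QuotientGroup.lift j.range (θ.comp ρ₁) hker
  have hσ : ∀ (g : G) (x : V), σ (g : G ⧸ j.range) (orb N x) = orb N (ρ g • x) :=
    fun g x => rfl
  have hYc := quot_connected N hX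
  have hYlf := fun a => quot_lf N hlf a
  have hσgeo : IsGeometric (quotGraph N) σ := by
    refine ⟨?_, ?_⟩
    · apply proper_of_stab hYc hYlf
      intro a b
      obtain ⟨x, rfl⟩ := orb_surj N a
      obtain ⟨y, rfl⟩ := orb_surj N b
      have h1 : {g : G | ∃ φ ∈ P, ρ g • x = φ • y}.Finite := by
        refine ((hPo y).biUnion (fun w _ => stab_of_proper hgeo x w)).subset ?_
        rintro g ⟨φ, hφ, h⟩
        simp only [Set.mem_iUnion]
        exact ⟨φ • y, ⟨φ, hφ, rfl⟩, h⟩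
      refine (h1.image (fun g : G => (g : G ⧸ j.range))).subset ?_
      intro γ hγ
      obtain ⟨g, rfl⟩ := QuotientGroup.mk_surjective γ
      have h2 : orb N (ρ g • x) = orb N y := hγ
      obtain ⟨n, hn, h3⟩ := (orb_eq_iff N _ _).1 h2
      obtain ⟨k, hk⟩ := (memN n).1 hn
      refine ⟨(j k)⁻¹ * g, ⟨(ρ (j k))⁻¹ * n, hk, ?_⟩, ?_⟩
      · rw [map_mul, map_inv, mul_smul, ← h3, mul_smul]
      · show (((j k)⁻¹ * g : G) : G ⧸ j.range) = (g : G ⧸ j.range)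
        rw [QuotientGroup.mk_mul, QuotientGroup.mk_inv]
        have : ((j k : G) : G ⧸ j.range) = 1 := (QuotientGroup.eq_one_iff _).2 ⟨k, rfl⟩
        rw [this, inv_one, one_mul]
    · obtain ⟨v, r, hv⟩ := hgeo.cocompact
      refine ⟨orb N v, r, ?_⟩
      intro b
      obtain ⟨w, rfl⟩ := orb_surj N b
      obtain ⟨γ, hγ⟩ := hv w
      refine ⟨(γ : G ⧸ j.range), ?_⟩
      rw [hσ]
      exact (quot_dist N hX _ _).trans hγ
  obtain ⟨PY, hPYn, hPYo, BY, hBY, hBYP⟩ := hgd _ (quotGraph N) hYc hYlf σ hσgeo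
  set D : Subgroup (X ≃g X) := (PY.comap θ).map L₂.subtype with hD
  have memD : ∀ l : X ≃g X, l ∈ D ↔ ∃ h : l ∈ L₂, θ ⟨l, h⟩ ∈ PY := by
    intro l
    constructor
    · rintro ⟨⟨l, h⟩, hl, rfl⟩
      exact ⟨h, hl⟩
    · rintro ⟨h, hl⟩
      exact ⟨⟨l, h⟩, hl, rfl⟩
  have hAD : ∀ a : A, ρ (j a) ∈ D := by
    intro a
    refine (memD _).2 ⟨hρL _, ?_⟩
    have : θ ⟨ρ (j a), hρL (j a)⟩ = 1 := hker (j a) ⟨a, rfl⟩
    rw [this]
    exact PY.one_mem
  -- the relevant elements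
  set EQ : Set (X ≃g X) := {l | l ∈ L₁ ⊓ D ∧ Ell V l} with hEQ
  have hEQconj : ∀ e ∈ EQ, ∀ g : G, (ρ g)⁻¹ * e * ρ g ∈ EQ := by
    rintro e ⟨⟨he1, he2⟩, hel⟩ g
    refine ⟨⟨?_, ?_⟩, hel.conj _⟩
    · change (ρ g)⁻¹ * e * ρ g ∈ L₁
      rw [memL₁]
      intro a
      obtain ⟨a', ha'⟩ := hjn g a
      have h1 := (memL₁ e).1 he1 a'
      rw [ha', map_mul, map_mul, map_inv, map_mul, map_mul, map_inv] at h1
      rw [map_mul, map_mul, map_inv]
      have h2 : π (ρ (j a)) * ((π (ρ g))⁻¹ * π e * π (ρ g)) =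
          (π (ρ g))⁻¹ * (π (ρ g) * π (ρ (j a)) * (π (ρ g))⁻¹ * π e) * π (ρ g) := by group
      rw [h2, h1]
      group
    · obtain ⟨h, hθe⟩ := (memD e).1 he2
      refine (memD _).2 ⟨L₂.mul_mem (L₂.mul_mem (L₂.inv_mem (hρL g)) h) (hρL g), ?_⟩
      have e1 : (⟨(ρ g)⁻¹ * e * ρ g, L₂.mul_mem (L₂.mul_mem (L₂.inv_mem (hρL g)) h) (hρL g)⟩ :
          L₂) = (⟨ρ g, hρL g⟩ : L₂)⁻¹ * ⟨e, h⟩ * ⟨ρ g, hρL g⟩ := rfl
      rw [e1, map_mul, map_mul, map_inv]
      have := hPYn.conj_mem _ hθe (θ ⟨ρ g, hρL g⟩)⁻¹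
      rwa [inv_inv] at this
  have hsurj : ∀ a : Orb N, ∃ x : V, orb N x = a := orb_surj N
  choose s hs using hsurj
  have hPfib : ∀ a : Orb P, {y : V | orb P y = a}.Finite := by
    intro a
    obtain ⟨x, rfl⟩ := orb_surj P a
    refine (hPo x).subset ?_
    intro y hy
    obtain ⟨p, hp, h⟩ := (orb_eq_iff P _ _).1 hy
    exact ⟨p, hp, h.symm⟩
  -- powers
  have hpow : ∀ (l : X ≃g X) (x : V), (∃ p ∈ P, l • x = p • x) → Ell V l := by
    rintro l x ⟨p, hp, h2⟩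
    have h3 : ∀ a : ℕ, ∃ p ∈ P, l ^ a • x = p • x := by
      intro a
      induction a with
      | zero => exact ⟨1, P.one_mem, by simp⟩
      | succ a ih =>
        obtain ⟨p', hp', h⟩ := ih
        refine ⟨(l * p' * l⁻¹) * p, P.mul_mem (PP_conj hX hp' _) hp, ?_⟩
        rw [pow_succ', mul_smul, h, mul_smul, ← h2]
        simp only [← mul_smul]
        congr 1
        group
    apply ell_of_orbit_finite hX hlf l x
    refine (hPo x).subset ?_
    rintro _ ⟨a, rfl⟩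
    exact h3 a
  have hEllA : ∀ a : A, Ell V (ρ (j a)) → a = 1 := by
    intro a ha
    obtain ⟨x⟩ := hX.nonempty
    have h1 : {γ : G | ρ γ • x ∈ {y | ∃ k : ℕ, y = ρ (j a) ^ k • x}}.Finite := by
      refine ((ha x).biUnion (fun w _ => stab_of_proper hgeo x w)).subset ?_
      intro γ hγ
      simp only [Set.mem_iUnion]
      exact ⟨_, hγ, rfl⟩
    by_contra hne
    apply Set.infinite_range_of_injective (f := fun n : ℕ => j (a ^ n)) ?_
    · refine h1.subset ?_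
      rintro _ ⟨n, rfl⟩
      refine ⟨n, ?_⟩
      simp only [map_pow]
    · intro m n hmn
      have h2 : a ^ m = a ^ n := hj hmn
      by_contra hmn'
      apply hne
      rcases lt_or_gt_of_ne hmn' with hlt | hlt
      · refine htf a (n - m) (by omega) ?_
        have h3 : a ^ n = a ^ m * a ^ (n - m) := by rw [← pow_add]; congr 1; omega
        rw [h3] at h2
        exact (mul_eq_left.1 h2.symm)
      · refine htf a (m - n) (by omega) ?_
        have h3 : a ^ m = a ^ n * a ^ (m - n) := by rw [← pow_add]; congr 1; omega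
        rw [h3] at h2
        exact (mul_eq_left.1 h2)
  have hEQfin : ∀ x : V, {y | ∃ e ∈ EQ, y = e • x}.Finite := by
    intro x
    suffices h : {a : Orb P | ∃ e ∈ EQ, a = orb P (e • x)}.Finite by
      refine (h.biUnion (fun a _ => hPfib a)).subset ?_
      rintro _ ⟨e, he, rfl⟩
      simp only [Set.mem_iUnion]
      exact ⟨orb P (e • x), ⟨e, he, rfl⟩, rfl⟩
    set O : Set (Orb N) := {w | ∃ φ ∈ PY, w = φ (orb N x)} with hO
    have hOfin : O.Finite := hPYo (orb N x)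
    set FΩ : Set (Orb P) := (fun w => orb P (s w)) '' O with hFΩ
    have hFΩfin : FΩ.Finite := hOfin.image _
    have hcov : ∀ l ∈ D, ∃ w ∈ O, ∃ k : A, ∃ p ∈ P, l • x = ρ (j k) • p • s w := by
      intro l hl
      obtain ⟨hl, hθl⟩ := (memD l).1 hl
      refine ⟨θ ⟨l, hl⟩ (orb N x), ⟨_, hθl, rfl⟩, ?_⟩
      have h1 : orb N (l • x) = orb N (s (θ ⟨l, hl⟩ (orb N x))) := by
        rw [hs]
        rfl
      obtain ⟨n, hn, h2⟩ := (orb_eq_iff N _ _).1 h1
      obtain ⟨k, hk⟩ := (memN n).1 hn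
      refine ⟨k, (ρ (j k))⁻¹ * n, hk, ?_⟩
      rw [← mul_smul, mul_inv_cancel_left, h2]
    set QQ : Subgroup (quotGraph P ≃g quotGraph P) := (L₁ ⊓ D).map θP with hQQ
    let ι : A →* QQ := ((θP.comp ρ).comp j).codRestrict QQ (fun a =>
      ⟨ρ (j a), ⟨hAL₁ a, hAD a⟩, rfl⟩)
    have hι : ∀ (a : A) (y : V), ι a • orb P y = orb P (ρ (j a) • y) := fun a y => rfl
    have hres := ell_orbit_finite' (Ω := Orb P) ι (by
        rintro a ⟨q, l, ⟨hl1, hl2⟩, rfl⟩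
        apply Subtype.ext
        show θP (ρ (j a)) * θP l = θP l * θP (ρ (j a))
        rw [← map_mul, ← map_mul]
        apply RelIso.ext
        intro b
        obtain ⟨y, rfl⟩ := orb_surj P b
        rw [hθPorb, hθPorb, eq_comm, orb_eq_iff]
        have h1 := (memL₁ l).1 hl1 a
        refine ⟨(l * ρ (j a)) * (ρ (j a) * l)⁻¹, ?_, ?_⟩
        · rw [← hπP, map_mul, map_inv, map_mul, map_mul, h1, mul_inv_cancel]
        · rw [← mul_smul, inv_mul_cancel_right]) htf (orb P x) (by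
        intro a ha
        rw [hι, orb_eq_iff] at ha
        obtain ⟨p, hp, h⟩ := ha
        exact hEllA a (hpow _ x ⟨p, hp, h.symm⟩)) FΩ hFΩfin (by
        rintro ⟨q, l, ⟨hl1, hl2⟩, rfl⟩
        obtain ⟨w, hw, k, p, hp, h1⟩ := hcov l hl2
        refine ⟨orb P (s w), ⟨w, hw, rfl⟩, k, ?_⟩
        rw [hι]
        show orb P (l • x) = _
        rw [h1, orb_eq_iff]
        refine ⟨ρ (j k) * p * (ρ (j k))⁻¹, PP_conj hX hp _, ?_⟩
        simp only [← mul_smul]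
        congr 1
        group) (by
        rintro ⟨q, l, ⟨hl1, hl2⟩, rfl⟩ hfix
        have h1 : orb P (l • x) = orb P x := hfix
        obtain ⟨p, hp, h2⟩ := (orb_eq_iff P _ _).1 h1
        have h4 : Ell V l := hpow l x ⟨p, hp, h2.symm⟩
        intro t
        obtain ⟨y, rfl⟩ := orb_surj P t
        refine ((h4 y).image (orb P)).subset ?_
        rintro _ ⟨a, rfl⟩
        refine ⟨l ^ a • y, ⟨a, rfl⟩, ?_⟩
        symm
        have e1 : (((⟨θP l, l, ⟨hl1, hl2⟩, rfl⟩ : QQ) ^ a : QQ) :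
            quotGraph P ≃g quotGraph P) = θP (l ^ a) := by
          rw [map_pow]
          rfl
        show (((⟨θP l, l, ⟨hl1, hl2⟩, rfl⟩ : QQ) ^ a : QQ) :
            quotGraph P ≃g quotGraph P) (orb P y) = _
        rw [e1, hθPorb])
    refine hres.subset ?_
    rintro _ ⟨e, ⟨⟨he, hθe⟩, hel⟩, rfl⟩
    refine ⟨⟨θP e, e, ⟨he, hθe⟩, rfl⟩, ?_, rfl⟩
    intro t
    obtain ⟨y, rfl⟩ := orb_surj P t
    refine ((hel y).image (orb P)).subset ?_
    rintro _ ⟨a, rfl⟩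
    refine ⟨e ^ a • y, ⟨a, rfl⟩, ?_⟩
    symm
    have e1 : (((⟨θP e, e, ⟨he, hθe⟩, rfl⟩ : QQ) ^ a : QQ) :
        quotGraph P ≃g quotGraph P) = θP (e ^ a) := by
      rw [map_pow]
      rfl
    show (((⟨θP e, e, ⟨he, hθe⟩, rfl⟩ : QQ) ^ a : QQ) :
        quotGraph P ≃g quotGraph P) (orb P y) = _
    rw [e1, hθPorb]
  obtain ⟨r, hr⟩ := disp ρ hX F hF hGF EQ hEQconj (fun f _ => hEQfin f)
  have hne := hX.nonempty
  obtain ⟨x₀⟩ := hne
  refine ⟨PP X r, PP_normal hX r, fun v => PP_orbit hX hlf r v,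
    {w | X.dist x₀ w ≤ R} ∪ s '' BY, (ball_finite hX hlf x₀ R).union (hBY.image s), ?_⟩
  intro φ hφ
  have hφx₀ : φ • x₀ = x₀ := hφ x₀ (Or.inl (by simp))
  have hφe : Ell V φ := ell_of_fix hX hlf φ x₀ hφx₀
  have hφinv : φ⁻¹ • x₀ = x₀ := by rw [inv_smul_eq_iff, hφx₀]
  have hφL : φ ∈ L₁ := by
    apply memL₁'
    intro t ht
    set z := ρ (j t) with hz
    have h1 : z⁻¹ * (φ * z * φ⁻¹) ∈ P := by
      apply EE_sub_PP
      refine ⟨?_, fun y => dist_two hX R z φ (hRS t ht) y⟩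
      apply ell_of_fix hX hlf _ x₀
      rw [mul_smul, mul_smul, mul_smul, hφinv]
      have h2 : φ • z • x₀ = z • x₀ := hφ (z • x₀) (Or.inl (hRS t ht x₀))
      rw [h2, inv_smul_smul]
    rw [← hπP, map_mul, map_inv, map_mul, map_mul, map_inv, inv_mul_eq_one] at h1
    rw [eq_mul_inv_iff_mul_eq] at h1
    exact h1
  have hφL₂ : φ ∈ L₂ := hL₁₂ hφL
  have hφθ : θ ⟨φ, hφL₂⟩ ∈ PY := by
    apply hBYP
    intro b hb
    have h1 : φ • s b = s b := hφ (s b) (Or.inr ⟨b, hb, rfl⟩)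
    have h2 : θ ⟨φ, hφL₂⟩ (orb N (s b)) = orb N (φ • s b) := rfl
    rw [h1, hs] at h2
    exact h2
  exact EE_sub_PP ⟨hφe, fun x => hr φ ⟨⟨hφL, (memD φ).2 ⟨hφL₂, hφθ⟩⟩, hφe⟩ x⟩

end Pool.Agent.Y548.GD
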