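import Pool.Agent.Y548.GD.Hyper

/-!
# Extensions of graphically discrete groups by finite kernels
-/

set_option autoImplicit false

namespace Pool.Agent.Y548.GD

universe u

open Pool.Agent.W385.GD

theorem dsc_of_finite {G : Type*} [Group G] (N₀ : Subgroup G) [hN₀ : N₀.Normal]
    (hfin : (N₀ : Set G).Finite)
    (hgd : ∀ (W : Type) (Y : SimpleGraph W), Y.Connected → (∀ v, (Y.neighborSet v).Finite) →
      ∀ σ : (G ⧸ N₀) →* (Y ≃g Y), IsGeometric Y σ → Dsc Y)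
    (V : Type) (X : SimpleGraph V) (hX : X.Connected) (hlf : ∀ v, (X.neighborSet v).Finite)
    (ρ : G →* (X ≃g X)) (hgeo : IsGeometric X ρ) : Dsc X := by
  classical
  obtain ⟨F, hF, hGF⟩ := exists_fund hX hlf hgeo
  obtain ⟨R, hR⟩ := disp ρ hX F hF hGF (ρ '' (N₀ : Set G)) (by
      rintro _ ⟨n, hn, rfl⟩ g
      refine ⟨g⁻¹ * n * g, ?_, by rw [map_mul, map_mul, map_inv]⟩
      have := hN₀.conj_mem n hn g⁻¹
      rwa [inv_inv] at this) (by
      intro f _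
      refine (hfin.image (fun n => ρ n • f)).subset ?_
      rintro _ ⟨_, ⟨n, hn, rfl⟩, rfl⟩
      exact ⟨n, hn, rfl⟩)
  have hNP : ∀ n ∈ N₀, ρ n ∈ PP X R := by
    intro n hn
    apply EE_sub_PP
    refine ⟨?_, fun x => hR _ ⟨n, hn, rfl⟩ x⟩
    intro x
    refine (hfin.image (fun n => ρ n • x)).subset ?_
    rintro _ ⟨a, rfl⟩
    refine ⟨n ^ a, N₀.pow_mem hn a, ?_⟩
    show ρ (n ^ a) • x = ρ n ^ a • x
    rw [map_pow]
  set P : Subgroup (X ≃g X) := PP X R with hPdef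
  have hPn : P.Normal := PP_normal hX _
  have hPo : ∀ x : V, {y | ∃ φ ∈ P, y = φ • x}.Finite := fun x => PP_orbit hX hlf _ x
  set θ₀ := quotHom P ⊤ (fun φ _ n hn => PP_conj hX hn φ) with hθ₀
  let θ : (X ≃g X) →* (quotGraph P ≃g quotGraph P) :=
    θ₀.comp (Subgroup.topEquiv.symm : (X ≃g X) ≃* (⊤ : Subgroup (X ≃g X))).toMonoidHom
  have hθ : ∀ (l : X ≃g X) (x : V), θ l (orb P x) = orb P (l • x) := fun l x => rfl
  have hker : ∀ g ∈ N₀, (θ.comp ρ) g = 1 := by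
    intro g hg
    apply RelIso.ext
    intro a
    obtain ⟨x, rfl⟩ := orb_surj P a
    show θ (ρ g) (orb P x) = orb P x
    rw [hθ, orb_eq_iff]
    exact ⟨ρ g, hNP g hg, rfl⟩
  let σ : (G ⧸ N₀) →* (quotGraph P ≃g quotGraph P) :=
    QuotientGroup.lift N₀ (θ.comp ρ) hker
  have hσ : ∀ (g : G) (x : V), σ (g : G ⧸ N₀) (orb P x) = orb P (ρ g • x) :=
    fun g x => rfl
  have hYc := quot_connected P hX
  have hYlf := fun a => quot_lf P hlf a
  have hσgeo : IsGeometric (quotGraph P) σ := by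
    refine ⟨?_, ?_⟩
    · apply proper_of_stab hYc hYlf
      intro a b
      obtain ⟨x, rfl⟩ := orb_surj P a
      obtain ⟨y, rfl⟩ := orb_surj P b
      have h1 : {g : G | ∃ φ ∈ P, ρ g • x = φ • y}.Finite := by
        refine ((hPo y).biUnion (fun w _ => stab_of_proper hgeo x w)).subset ?_
        rintro g ⟨φ, hφ, h⟩
        simp only [Set.mem_iUnion]
        exact ⟨φ • y, ⟨φ, hφ, rfl⟩, h⟩
      refine (h1.image (fun g : G => (g : G ⧸ N₀))).subset ?_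
      intro γ hγ
      obtain ⟨g, rfl⟩ := QuotientGroup.mk_surjective γ
      have h2 : orb P (ρ g • x) = orb P y := hγ
      obtain ⟨n, hn, h3⟩ := (orb_eq_iff P _ _).1 h2
      exact ⟨g, ⟨n, hn, h3.symm⟩, rfl⟩
    · obtain ⟨v, r, hv⟩ := hgeo.cocompact
      refine ⟨orb P v, r, ?_⟩
      intro b
      obtain ⟨w, rfl⟩ := orb_surj P b
      obtain ⟨γ, hγ⟩ := hv w
      refine ⟨(γ : G ⧸ N₀), ?_⟩
      rw [hσ]
      exact (quot_dist P hX _ _).trans hγ
  obtain ⟨PY, hPYn, hPYo, BY, hBY, hBYP⟩ := hgd _ (quotGraph P) hYc hYlf σ hσgeo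
  have hsurj : ∀ a : Orb P, ∃ x : V, orb P x = a := orb_surj P
  choose s hs using hsurj
  refine ⟨PY.comap θ, hPYn.comap θ, ?_, s '' BY, hBY.image s, ?_⟩
  · intro v
    refine ((hPYo (orb P v)).biUnion (fun a _ => hPo (s a))).subset ?_
    rintro _ ⟨φ, hφ, rfl⟩
    simp only [Set.mem_iUnion]
    have hφ' : θ φ ∈ PY := hφ
    refine ⟨θ φ (orb P v), ⟨θ φ, hφ', rfl⟩, ?_⟩
    have h1 : orb P (φ • v) = orb P (s (θ φ (orb P v))) := by
      rw [hs]
      rfl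
    obtain ⟨n, hn, h2⟩ := (orb_eq_iff P _ _).1 h1
    exact ⟨n, hn, h2.symm⟩
  · intro φ hφ
    show θ φ ∈ PY
    apply hBYP
    intro b hb
    have h1 : φ • s b = s b := hφ (s b) ⟨b, hb, rfl⟩
    have h2 : θ φ (orb P (s b)) = orb P (φ • s b) := rfl
    rw [h1, hs] at h2
    exact h2

/-- Finite kernels. -/
theorem gd_of_finite {G : Type*} [Group G] (hfg : Group.FG G) (N₀ : Subgroup G) [N₀.Normal]
    (hfin : (N₀ : Set G).Finite) (h : GraphicallyDiscrete (G ⧸ N₀)) : GraphicallyDiscrete G :=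
  ⟨hfg, fun V X hX hlf ρ hρ => cbd_of_dsc X (dsc_of_finite N₀ hfin
    (fun W Y hY hYlf σ hσ => dsc_of_cbd Y (h.2 W Y hY hYlf σ hσ)) V X hX hlf ρ hρ)⟩

end Pool.Agent.Y548.GD
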