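import Pool.Agent.W385.GD.Final

/-!
# Hypercentral extensions of graphically discrete groups
-/

namespace Pool.Agent.Y548.GD

universe u

open scoped commutatorElement

open Pool.Agent.W385.GD

theorem normal_of_le_center {K : Type u} [Group K] {C : Subgroup K} (hC : C ≤ Subgroup.center K) :
    C.Normal := by
  refine ⟨fun n hn g => ?_⟩
  have h1 : g * n = n * g := (Subgroup.mem_center_iff.1 (hC hn)) g
  rw [h1, mul_inv_cancel_right]
  exact hn

/-- Finitely many central elements. -/
theorem gd_of_central_list : ∀ (k : ℕ) (K L : Type u) [Group K] [Group L] (l : List K)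
    (f : K →* L), l.length = k → Group.FG K → (∀ z ∈ l, ∀ g : K, z * g = g * z) →
    Function.Surjective f → f.ker = Subgroup.closure {x | x ∈ l} →
    GraphicallyDiscrete L → GraphicallyDiscrete K := by
  intro k
  induction k with
  | zero =>
    intro K L _ _ l f hl _ _ hf hker hL
    have hl' : l = [] := List.length_eq_zero_iff.1 hl
    subst hl'
    have hinj : Function.Injective f := by
      rw [← MonoidHom.ker_eq_bot_iff, hker]
      simp
    exact gd_of_equiv (MulEquiv.ofBijective f ⟨hinj, hf⟩).symm hL
  | succ k ih =>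
    intro K L _ _ l f hl hfg hc hf hker hL
    obtain ⟨z, l, rfl⟩ : ∃ z l', l = z :: l' := by
      cases l with
      | nil => simp at hl
      | cons z l => exact ⟨z, l, rfl⟩
    have hz := hc z List.mem_cons_self
    have hn : (Subgroup.zpowers z).Normal := by
      refine normal_of_le_center ?_
      rw [Subgroup.zpowers_le, Subgroup.mem_center_iff]
      exact fun g => (hz g).symm
    have hzk : z ∈ f.ker := by
      rw [hker]
      exact Subgroup.subset_closure List.mem_cons_self
    have hle : Subgroup.zpowers z ≤ f.ker := by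
      rw [Subgroup.zpowers_le]; exact hzk
    set π := QuotientGroup.mk' (Subgroup.zpowers z) with hπ
    let f' : K ⧸ Subgroup.zpowers z →* L := QuotientGroup.lift (Subgroup.zpowers z) f
      (fun x hx => hle hx)
    have hf'π : ∀ x, f' (π x) = f x := fun x => rfl
    refine gd_of_central hfg z hz ?_
    refine ih (K ⧸ Subgroup.zpowers z) L (l.map π) f' (by simpa using hl)
      (Group.fg_of_surjective (f := π) (QuotientGroup.mk'_surjective _)) ?_ ?_ ?_ hL
    · intro y hy g
      obtain ⟨x, hx, rfl⟩ := List.mem_map.1 hy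
      obtain ⟨g, rfl⟩ := QuotientGroup.mk'_surjective _ g
      rw [← map_mul, ← map_mul, hc x (List.mem_cons_of_mem _ hx) g]
    · intro y
      obtain ⟨x, rfl⟩ := hf y
      exact ⟨π x, rfl⟩
    · apply le_antisymm
      · intro y hy
        obtain ⟨x, rfl⟩ := QuotientGroup.mk'_surjective _ y
        have h1 : x ∈ f.ker := hy
        rw [hker] at h1
        have h2 : Subgroup.closure {x | x ∈ z :: l} ≤
            (Subgroup.closure {x | x ∈ l.map π}).comap π := by
          rw [Subgroup.closure_le]
          intro w hw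
          rcases List.mem_cons.1 hw with rfl | hw
          · change π w ∈ Subgroup.closure {x | x ∈ l.map π}
            have : π w = 1 := (QuotientGroup.eq_one_iff _).2 (Subgroup.mem_zpowers w)
            rw [this]
            exact Subgroup.one_mem _
          · exact Subgroup.subset_closure (List.mem_map.2 ⟨w, hw, rfl⟩)
        exact h2 h1
      · rw [Subgroup.closure_le]
        intro y hy
        obtain ⟨x, hx, rfl⟩ := List.mem_map.1 hy
        change f' (π x) = 1
        rw [hf'π]
        have : x ∈ f.ker := by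
          rw [hker]
          exact Subgroup.subset_closure (List.mem_cons_of_mem _ hx)
        exact this

theorem mk_comm_iff {Q : Type u} [Group Q] {N : Subgroup Q} [N.Normal] (x y : Q) :
    (QuotientGroup.mk' N x) * (QuotientGroup.mk' N y) =
      (QuotientGroup.mk' N y) * (QuotientGroup.mk' N x) ↔ ⁅x, y⁆ ∈ N := by
  rw [← commutatorElement_eq_one_iff_mul_comm, ← map_commutatorElement]
  exact QuotientGroup.eq_one_iff _

/-- A central step. -/
theorem gd_step {H : Type u} [Group H] [Group.FG H] (M N : Subgroup H) [M.Normal] [N.Normal]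
    (hMN : M ≤ N) (T : Set H) (hT : T.Finite) (hTN : Subgroup.normalClosure T = N)
    (hcen : ⁅N, (⊤ : Subgroup H)⁆ ≤ M) (h : GraphicallyDiscrete (H ⧸ N)) :
    GraphicallyDiscrete (H ⧸ M) := by
  classical
  set π := QuotientGroup.mk' M with hπ
  let f : H ⧸ M →* H ⧸ N := QuotientGroup.lift M (QuotientGroup.mk' N)
    (fun x hx => (QuotientGroup.eq_one_iff _).2 (hMN hx))
  have hcT : ∀ t ∈ N, ∀ g : H ⧸ M, π t * g = g * π t := by
    intro t ht g
    obtain ⟨g, rfl⟩ := QuotientGroup.mk'_surjective _ g
    exact (mk_comm_iff t g).2 (hcen (Subgroup.commutator_mem_commutator ht (Subgroup.mem_top _)))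
  have hTsub : T ⊆ N := by rw [← hTN]; exact Subgroup.subset_normalClosure
  refine gd_of_central_list _ (H ⧸ M) (H ⧸ N) (hT.toFinset.toList.map π) f rfl
    (Group.fg_of_surjective (f := π) (QuotientGroup.mk'_surjective _)) ?_ ?_ ?_ h
  · intro y hy g
    obtain ⟨t, ht, rfl⟩ := List.mem_map.1 hy
    exact hcT t (hTsub (by simpa using ht)) g
  · intro y
    obtain ⟨x, rfl⟩ := QuotientGroup.mk'_surjective _ y
    exact ⟨π x, rfl⟩
  · apply le_antisymm
    · intro y hy
      obtain ⟨x, rfl⟩ := QuotientGroup.mk'_surjective _ y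
      have h1 : x ∈ N := (QuotientGroup.eq_one_iff _).1 hy
      set C := Subgroup.closure {x | x ∈ hT.toFinset.toList.map π} with hC
      have hCc : C ≤ Subgroup.center (H ⧸ M) := by
        rw [hC, Subgroup.closure_le]
        intro y hy
        obtain ⟨t, ht, rfl⟩ := List.mem_map.1 hy
        exact Subgroup.mem_center_iff.2 fun g => (hcT t (hTsub (by simpa using ht)) g).symm
      have hCn := normal_of_le_center hCc
      have h2 : Subgroup.normalClosure T ≤ C.comap π := by
        refine Subgroup.normalClosure_le_normal ?_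
        intro t ht
        exact Subgroup.subset_closure (List.mem_map.2 ⟨t, by simpa using ht, rfl⟩)
      rw [hTN] at h2
      exact h2 h1
    · rw [Subgroup.closure_le]
      intro y hy
      obtain ⟨t, ht, rfl⟩ := List.mem_map.1 hy
      exact (QuotientGroup.eq_one_iff _).2 (hTsub (by simpa using ht))

/-- The commutator with the whole group is finitely generated as a normal subgroup. -/
theorem fin_comm {Q : Type u} [Group Q] [Group.FG Q] (N : Subgroup Q) (T : Set Q)
    (hT : T.Finite) (hTN : Subgroup.normalClosure T = N) :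
    ∃ T' : Set Q, T'.Finite ∧ Subgroup.normalClosure T' = ⁅N, (⊤ : Subgroup Q)⁆ := by
  obtain ⟨X, hX⟩ := Group.fg_def.1 (inferInstance : Group.FG Q)
  have hNn : N.Normal := by rw [← hTN]; infer_instance
  refine ⟨(fun p : Q × Q => ⁅p.1, p.2⁆) '' (T ×ˢ (X : Set Q)),
    (hT.prod X.finite_toSet).image _, le_antisymm ?_ ?_⟩
  · refine Subgroup.normalClosure_le_normal ?_
    rintro _ ⟨⟨t, x⟩, ⟨ht, _⟩, rfl⟩
    exact Subgroup.commutator_mem_commutator (hTN.le (Subgroup.subset_normalClosure ht))
      (Subgroup.mem_top _)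
  · set R := Subgroup.normalClosure ((fun p : Q × Q => ⁅p.1, p.2⁆) '' (T ×ˢ (X : Set Q)))
    have h1 : T ⊆ (Subgroup.center (Q ⧸ R)).comap (QuotientGroup.mk' R) := by
      intro t ht
      have h2 : Subgroup.closure (X : Set Q) ≤
          (Subgroup.centralizer {QuotientGroup.mk' R t}).comap (QuotientGroup.mk' R) := by
        rw [Subgroup.closure_le]
        intro x hx
        change QuotientGroup.mk' R x ∈ Subgroup.centralizer {QuotientGroup.mk' R t}
        rw [Subgroup.mem_centralizer_iff]
        rintro _ rfl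
        exact (mk_comm_iff t x).2 (Subgroup.subset_normalClosure ⟨(t, x), ⟨ht, hx⟩, rfl⟩)
      rw [hX] at h2
      change QuotientGroup.mk' R t ∈ Subgroup.center (Q ⧸ R)
      rw [Subgroup.mem_center_iff]
      intro y
      obtain ⟨y, rfl⟩ := QuotientGroup.mk'_surjective R y
      have h3 := h2 (Subgroup.mem_top y)
      rw [Subgroup.mem_comap, Subgroup.mem_centralizer_iff] at h3
      exact (h3 _ rfl).symm
    have h2 := Subgroup.normalClosure_le_normal h1
    rw [hTN] at h2
    rw [Subgroup.commutator_le]
    intro a ha b _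
    have h3 := h2 ha
    rw [Subgroup.mem_comap, Subgroup.mem_center_iff] at h3
    exact (mk_comm_iff a b).1 (h3 _).symm

/-- Hypercentral extensions. -/
theorem gd_of_hypercentral {H : Type u} [Group H] [Group.FG H] (c : ℕ) :
    ∀ (N : Subgroup H) [N.Normal] (T : Set H), T.Finite → Subgroup.normalClosure T = N →
    N ≤ Subgroup.upperCentralSeries H c → GraphicallyDiscrete (H ⧸ N) →
    GraphicallyDiscrete H := by
  induction c with
  | zero =>
    intro N _ T _ _ hN h
    have hN' : N = ⊥ := by
      rw [eq_bot_iff]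
      simpa using hN
    subst hN'
    exact gd_of_equiv (QuotientGroup.quotientBot (G := H)) h
  | succ c ih =>
    intro N _ T hT hTN hN h
    obtain ⟨T', hT', hTM⟩ := fin_comm N T hT hTN
    have hMle : ⁅N, (⊤ : Subgroup H)⁆ ≤ Subgroup.upperCentralSeries H c := by
      rw [Subgroup.commutator_le]
      intro a ha b _
      exact (Subgroup.mem_upperCentralSeries_succ_iff).1 (hN ha) b
    exact ih ⁅N, (⊤ : Subgroup H)⁆ T' hT' hTM hMle (gd_step ⁅N, (⊤ : Subgroup H)⁆ N
      (Subgroup.commutator_le_left N ⊤) T hT hTN le_rfl h)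

/-- Passage to overgroups of finite index. -/
theorem gd_of_finiteIndex {G : Type u} [Group G] (hG : Group.FG G) (H : Subgroup G)
    (hH : H.FiniteIndex) (h : GraphicallyDiscrete H) : GraphicallyDiscrete G := by
  have hfin : Finite (G ⧸ H) := Subgroup.finite_quotient_of_finiteIndex
  refine gd_of_hom H.subtype H.subtype_injective
    (Set.range (fun c : G ⧸ H => (c.out)⁻¹)) (Set.finite_range _) ?_ hG h
  intro b
  have h2 : ((b⁻¹ : G) : G ⧸ H).out⁻¹ * b⁻¹ ∈ H := by
    rw [← QuotientGroup.eq, QuotientGroup.out_eq']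
  refine ⟨⟨(((b⁻¹ : G) : G ⧸ H).out⁻¹ * b⁻¹)⁻¹, H.inv_mem h2⟩,
    (((b⁻¹ : G) : G ⧸ H).out)⁻¹, ⟨((b⁻¹ : G) : G ⧸ H), rfl⟩, ?_⟩
  simp

/-- The general statement. -/
theorem gd_virt_hypercentral {G : Type u} [Group G] (hG : Group.FG G) (H : Subgroup G)
    (hH : H.FiniteIndex) (N : Subgroup H) [N.Normal] (hN : Group.FG N) (c : ℕ)
    (hc : N ≤ Subgroup.upperCentralSeries H c) (h : GraphicallyDiscrete (H ⧸ N)) :
    GraphicallyDiscrete G := by
  have hHfg : Group.FG H := Subgroup.fg_of_index_ne_zero H
  refine gd_of_finiteIndex hG H hH ?_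
  obtain ⟨T, hT, hTf⟩ := (Subgroup.fg_iff N).1 ((Group.fg_iff_subgroup_fg N).1 hN)
  refine gd_of_hypercentral c N T hTf ?_ hc h
  apply le_antisymm
  · refine Subgroup.normalClosure_le_normal ?_
    rw [← hT]
    exact Subgroup.subset_closure
  · rw [← hT]
    exact Subgroup.closure_le_normalClosure

end Pool.Agent.Y548.GD
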