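import Pool.Agent.W385.GD.Transfer

/-!
# Elements with finite orbits in a group with a cocompact central abelian subgroup
-/

set_option autoImplicit false

namespace Pool.Agent.Y548.GD

open Pool.Agent.W385.GD

variable {Q Ω A : Type*} [Group Q] [MulAction Q Ω] [CommGroup A]

/-- The set of elements mapping `ω` into its `A`-orbit. -/
def astab (ι : A →* Q) (hz : ∀ (a : A) (q : Q), ι a * q = q * ι a) (ω : Ω) : Subgroup Q where
  carrier := {q | ∃ k : A, q • ω = ι k • ω}
  one_mem' := ⟨1, by simp⟩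
  mul_mem' := by
    rintro a b ⟨k, hk⟩ ⟨l, hl⟩
    exact ⟨l * k, by rw [mul_smul, hl, ← mul_smul, ← hz, mul_smul, hk, ← mul_smul, ← map_mul]⟩
  inv_mem' := by
    rintro a ⟨k, hk⟩
    refine ⟨k⁻¹, ?_⟩
    rw [inv_smul_eq_iff, ← mul_smul, ← hz, mul_smul, hk, ← mul_smul, ← map_mul]
    simp

theorem ell_orbit_finite' (ι : A →* Q) (hz : ∀ (a : A) (q : Q), ι a * q = q * ι a)
    (htf : ∀ (a : A) (n : ℕ), n ≠ 0 → a ^ n = 1 → a = 1) (ω : Ω)
    (hfree : ∀ a : A, ι a • ω = ω → a = 1)
    (F : Set Ω) (hF : F.Finite) (hQF : ∀ q : Q, ∃ f ∈ F, ∃ k : A, q • ω = ι k • f)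
    (hfix : ∀ q : Q, q • ω = ω → Ell Ω q) :
    {y | ∃ q : Q, Ell Ω q ∧ y = q • ω}.Finite := by
  classical
  have huniq : ∀ k l : A, ι k • ω = ι l • ω → k = l := by
    intro k l h
    have : ι (l⁻¹ * k) • ω = ω := by
      rw [map_mul, mul_smul, h, ← mul_smul, ← map_mul]
      simp
    have := hfree _ this
    exact (inv_mul_eq_one.1 this).symm
  set H : Subgroup Q := astab ι hz ω with hH
  choose f hfF k hk using hQF
  -- finite index
  have hfi : Finite (Q ⧸ H) := by
    have : Finite F := hF.to_subtype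
    refine Finite.of_injective (fun x : Q ⧸ H => (⟨f x.out, hfF x.out⟩ : F)) ?_
    intro x y hxy
    have hxy' : f x.out = f y.out := congrArg Subtype.val hxy
    rw [← QuotientGroup.out_eq' x, ← QuotientGroup.out_eq' y, QuotientGroup.eq]
    refine ⟨k y.out * (k x.out)⁻¹, ?_⟩
    rw [mul_smul, inv_smul_eq_iff, hk y.out, ← hxy', ← mul_smul, ← hz, mul_smul, hk x.out,
      ← mul_smul, ← map_mul]
    congr 2
    group
  have hfi' : H.FiniteIndex := Subgroup.finiteIndex_of_finite_quotient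
  -- the homomorphism
  have hex : ∀ h : H, ∃ k : A, (h : Q) • ω = ι k • ω := fun h => h.2
  choose κ hκ using hex
  let φ : H →* A := MonoidHom.mk' κ (by
    intro a b
    apply huniq
    rw [← hκ (a * b), Subgroup.coe_mul, mul_smul, hκ b, ← mul_smul, ← hz, mul_smul, hκ a,
      ← mul_smul, ← map_mul, mul_comm])
  have hφ : ∀ h : H, φ h = κ h := fun h => rfl
  let τ : Q →* A := MonoidHom.transfer φ
  -- elliptic elements of H
  have hell1 : ∀ h : H, Ell Ω (h : Q) → κ h = 1 := by
    intro h he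
    by_contra hne
    have hpow : ∀ a : ℕ, (h : Q) ^ a • ω = ι (κ h ^ a) • ω := by
      intro a
      induction a with
      | zero => simp
      | succ a ih =>
        rw [pow_succ', mul_smul, ih, ← mul_smul, ← hz, mul_smul, hκ h, ← mul_smul, ← map_mul,
          ← pow_succ]
    apply Set.infinite_range_of_injective (f := fun a : ℕ => (h : Q) ^ a • ω) ?_
    · refine (he ω).subset ?_
      rintro _ ⟨a, rfl⟩
      exact ⟨a, rfl⟩
    · intro a b hab
      simp only at hab
      rw [hpow, hpow] at hab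
      have h1 := huniq _ _ hab
      by_contra hab'
      apply hne
      rcases lt_or_gt_of_ne hab' with hlt | hlt
      · refine htf (κ h) (b - a) (by omega) ?_
        have h2 : κ h ^ b = κ h ^ a * κ h ^ (b - a) := by rw [← pow_add]; congr 1; omega
        rw [h2] at h1
        exact (mul_eq_left.1 h1.symm)
      · refine htf (κ h) (a - b) (by omega) ?_
        have h2 : κ h ^ a = κ h ^ b * κ h ^ (a - b) := by rw [← pow_add]; congr 1; omega
        rw [h2] at h1
        exact (mul_eq_left.1 h1)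
  have hell : ∀ q : Q, Ell Ω q → τ q = 1 := by
    intro q hq
    have : Fintype (Quotient (MulAction.orbitRel (Subgroup.zpowers q) (Q ⧸ H))) :=
      Fintype.ofFinite _
    change MonoidHom.transfer φ q = 1
    rw [MonoidHom.transfer_eq_prod_quotient_orbitRel_zpowers_quot]
    apply Finset.prod_eq_one
    intro x _
    rw [hφ, hell1 _ ?_]
    exact (hq.pow _).conj _
  have hτz : ∀ c : A, τ (ι c) = 1 → c = 1 := by
    intro c h
    have hkey : ∀ (k : ℕ) (g₀ : Q), g₀⁻¹ * ι c ^ k * g₀ ∈ H → g₀⁻¹ * ι c ^ k * g₀ = ι c ^ k := by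
      intro k g₀ _
      rw [mul_assoc, ← map_pow, hz, inv_mul_cancel_left]
    have h1 : τ (ι c) = φ ⟨ι c ^ H.index, MonoidHom.transfer_eq_pow_aux (ι c) hkey⟩ :=
      MonoidHom.transfer_eq_pow φ (ι c) hkey
    rw [hφ] at h1
    have h2 : κ ⟨ι c ^ H.index, MonoidHom.transfer_eq_pow_aux (ι c) hkey⟩ = c ^ H.index := by
      apply huniq
      rw [← hκ]
      simp
    rw [h2, h] at h1
    exact htf c _ hfi'.index_ne_zero h1.symm
  -- conclusion
  have hinj : ∀ q q' : Q, Ell Ω q → Ell Ω q' → f q = f q' → q • ω = q' • ω := by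
    intro q q' hq hq' hff
    have h1 : q • ω = ι (k q * (k q')⁻¹) • q' • ω := by
      rw [hk q', ← hff, ← mul_smul, ← map_mul, hk q]
      congr 2
      group
    set c := k q * (k q')⁻¹ with hcdef
    have h2 : ((ι c * q')⁻¹ * q) • ω = ω := by
      rw [mul_smul, inv_smul_eq_iff, h1, mul_smul]
    have h3 := hell _ (hfix _ h2)
    rw [map_mul, map_inv, map_mul, hell q hq, hell q' hq', mul_one, mul_one, inv_eq_one] at h3
    have h4 := hτz c h3
    rw [h1, h4]
    simp
  refine Set.Finite.of_finite_image (f := fun y : Ω => if h : ∃ q : Q, Ell Ω q ∧ y = q • ω then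
    f h.choose else ω) ?_ ?_
  · refine hF.subset ?_
    rintro _ ⟨y, hy, rfl⟩
    have e1 : (∃ q : Q, Ell Ω q ∧ y = q • ω) := hy
    simp only
    rw [dif_pos e1]
    exact hfF _
  · intro y hy y' hy' h
    simp only at h
    have e1 : (∃ q : Q, Ell Ω q ∧ y = q • ω) := hy
    have e2 : (∃ q : Q, Ell Ω q ∧ y' = q • ω) := hy'
    rw [dif_pos e1, dif_pos e2] at h
    rw [e1.choose_spec.2, e2.choose_spec.2]
    exact hinj _ _ e1.choose_spec.1 e2.choose_spec.1 h

end Pool.Agent.Y548.GD
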