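import Pool.Agent.Y548.GD.Ab

/-!
# Chains of finite and virtually central factors
-/

set_option autoImplicit false

namespace Pool.Agent.Y548.GD

universe u v

open scoped commutatorElement

open Pool.Agent.W385.GD

theorem gd_of_abelian_hom {G : Type u} [Group G] (hfg : Group.FG G) {A : Type v} [iA : Group A]
    (hcomm : ∀ a b : A, a * b = b * a) (j : A →* G)
    (hj : Function.Injective j) [hR : j.range.Normal] (S : Set A) (hS : S.Finite)
    (hSc : Subgroup.closure S = ⊤)
    (hSn : ∀ g : G, ∀ s ∈ S, ∃ s' ∈ S, g⁻¹ * j s * g = j s')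
    (htf : ∀ (a : A) (n : ℕ), n ≠ 0 → a ^ n = 1 → a = 1)
    (h : GraphicallyDiscrete (G ⧸ j.range)) : GraphicallyDiscrete G := by
  let iC : CommGroup A := { iA with mul_comm := hcomm }
  exact ⟨hfg, fun V X hX hlf ρ hρ => cbd_of_dsc X (@dsc_of_abelian G _ A iC j hj hR S hS hSc hSn
    htf (fun W Y hY hYlf σ hσ => dsc_of_cbd Y (h.2 W Y hY hYlf σ hσ)) V X hX hlf ρ hρ)⟩

theorem gd_of_abelian_tf {K : Type u} [Group K] (hK : Group.FG K) (B : Subgroup K) [hB : B.Normal]
    (S : Set K) (hS : S.Finite) (hSB : Subgroup.closure S = B)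
    (hab : ∀ a ∈ B, ∀ b ∈ B, a * b = b * a)
    (hSn : ∀ g : K, ∀ s ∈ S, g⁻¹ * s * g ∈ S)
    (htf : ∀ a ∈ B, ∀ n : ℕ, n ≠ 0 → a ^ n = 1 → a = 1)
    (h : GraphicallyDiscrete (K ⧸ B)) : GraphicallyDiscrete K := by
  have hr : B.subtype.range = B := Subgroup.range_subtype _
  have hrn : B.subtype.range.Normal := by rw [hr]; exact hB
  have h' : GraphicallyDiscrete (K ⧸ B.subtype.range) :=
    gd_of_equiv (QuotientGroup.quotientMulEquivOfEq hr.symm) h
  have hcomm : ∀ a b : B, a * b = b * a := fun a b => Subtype.ext (hab a a.2 b b.2)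
  have hfin : (((↑) : B → K) ⁻¹' S).Finite := hS.preimage Subtype.val_injective.injOn
  have hcl : Subgroup.closure (((↑) : B → K) ⁻¹' S) = ⊤ := by
    subst hSB
    exact Subgroup.closure_closure_coe_preimage
  have hSS : ∀ g : K, ∀ s ∈ (((↑) : B → K) ⁻¹' S), ∃ s' ∈ (((↑) : B → K) ⁻¹' S),
      g⁻¹ * B.subtype s * g = B.subtype s' := by
    intro g s hs
    have h1 : g⁻¹ * (s : K) * g ∈ S := hSn g s hs
    have h2 : g⁻¹ * (s : K) * g ∈ B := hSB.le (Subgroup.subset_closure h1)
    exact ⟨⟨_, h2⟩, h1, rfl⟩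
  have htt : ∀ (a : B) (n : ℕ), n ≠ 0 → a ^ n = 1 → a = 1 := by
    intro a n hn ha
    apply Subtype.ext
    refine htf a a.2 n hn ?_
    rw [← Subgroup.coe_pow, ha, Subgroup.coe_one]
  exact gd_of_abelian_hom hK hcomm B.subtype B.subtype_injective _ hfin hcl hSS htt h'

theorem fin_tors (A : Type u) [CommGroup A] (hA : Group.FG A) :
    {a : A | ∃ n : ℕ, n ≠ 0 ∧ a ^ n = 1}.Finite := by
  have hm : Module.Finite ℤ (Additive A) := Module.Finite.iff_addGroup_fg.mpr inferInstance
  set T : Submodule ℤ (Additive A) := Submodule.torsion ℤ (Additive A) with hT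
  have hTf : Module.Finite ℤ T := inferInstance
  have hfin : Finite T := Module.finite_of_fg_torsion T (Submodule.torsion_isTorsion)
  have h1 : (T : Set (Additive A)).Finite := Set.toFinite _
  refine (h1.preimage (f := (Additive.ofMul : A → Additive A))
    (Additive.ofMul.injective.injOn)).subset ?_
  rintro a ⟨n, hn, ha⟩
  change Additive.ofMul a ∈ T
  rw [hT, Submodule.mem_torsion_iff]
  refine ⟨⟨(n : ℤ), mem_nonZeroDivisors_of_ne_zero (by exact_mod_cast hn)⟩, ?_⟩
  change (n : ℤ) • Additive.ofMul a = 0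
  rw [natCast_zsmul, ← ofMul_pow, ha, ofMul_one]

theorem fin_tors' (A : Type u) [iA : Group A] (hcomm : ∀ a b : A, a * b = b * a)
    (hA : Group.FG A) : {a : A | ∃ n : ℕ, n ≠ 0 ∧ a ^ n = 1}.Finite := by
  let iC : CommGroup A := { iA with mul_comm := hcomm }
  exact @fin_tors A iC hA

/-- Finitely generated abelian kernels with a finite invariant generating set. -/
theorem gd_of_abelian {K : Type u} [Group K] (hK : Group.FG K) (S : Set K) (hS : S.Finite)
    [hB : (Subgroup.closure S).Normal]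
    (hab : ∀ a ∈ Subgroup.closure S, ∀ b ∈ Subgroup.closure S, a * b = b * a)
    (hSn : ∀ g : K, ∀ s ∈ S, g⁻¹ * s * g ∈ S)
    (h : GraphicallyDiscrete (K ⧸ Subgroup.closure S)) : GraphicallyDiscrete K := by
  set B := Subgroup.closure S with hBdef
  have hBfg : Group.FG B := (Group.fg_iff_subgroup_fg B).2 ((Subgroup.fg_iff B).2 ⟨S, rfl, hS⟩)
  let Tor : Subgroup K :=
    { carrier := {b | b ∈ B ∧ ∃ n : ℕ, n ≠ 0 ∧ b ^ n = 1}
      one_mem' := ⟨B.one_mem, 1, one_ne_zero, one_pow 1⟩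
      mul_mem' := by
        rintro a b ⟨ha, m, hm, ha'⟩ ⟨hb, n, hn, hb'⟩
        refine ⟨B.mul_mem ha hb, m * n, mul_ne_zero hm hn, ?_⟩
        have hc : Commute a b := hab a ha b hb
        rw [hc.mul_pow, pow_mul, ha', one_pow, one_mul, mul_comm m n, pow_mul, hb', one_pow]
      inv_mem' := by
        rintro a ⟨ha, m, hm, ha'⟩
        exact ⟨B.inv_mem ha, m, hm, by rw [inv_pow, ha', inv_one]⟩ }
  have memTor : ∀ b, b ∈ Tor ↔ b ∈ B ∧ ∃ n : ℕ, n ≠ 0 ∧ b ^ n = 1 := fun b => Iff.rfl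
  have hTorn : Tor.Normal := by
    refine ⟨?_⟩
    rintro b ⟨hb, n, hn, hb'⟩ g
    refine ⟨hB.conj_mem b hb g, n, hn, ?_⟩
    rw [conj_pow, hb']
    simp
  have hTorB : Tor ≤ B := fun b hb => hb.1
  have hTorf : (Tor : Set K).Finite := by
    have h1 := fin_tors' B (fun a b => Subtype.ext (hab a a.2 b b.2)) hBfg
    refine (h1.image (fun b : B => (b : K))).subset ?_
    rintro b ⟨hb, n, hn, hb'⟩
    exact ⟨⟨b, hb⟩, ⟨n, hn, Subtype.ext (by simpa using hb')⟩, rfl⟩
  refine gd_of_finite hK Tor hTorf ?_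
  set π := QuotientGroup.mk' Tor with hπ
  have hπ1 : ∀ x, π x = 1 ↔ x ∈ Tor := fun x => QuotientGroup.eq_one_iff x
  have hcl : Subgroup.closure (π '' S) = B.map π := by rw [hBdef, MonoidHom.map_closure]
  have hBn : (B.map π).Normal := inferInstance
  refine gd_of_abelian_tf (Group.fg_of_surjective (f := π) (QuotientGroup.mk'_surjective _))
    (B.map π) (π '' S) (hS.image _) hcl ?_ ?_ ?_ ?_
  · rintro _ ⟨a, ha, rfl⟩ _ ⟨b, hb, rfl⟩
    rw [← map_mul, ← map_mul, hab a ha b hb]
  · rintro g _ ⟨s, hs, rfl⟩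
    obtain ⟨g, rfl⟩ := QuotientGroup.mk'_surjective _ g
    exact ⟨g⁻¹ * s * g, hSn g s hs, by rw [map_mul, map_mul, map_inv]⟩
  · rintro _ ⟨a, ha, rfl⟩ n hn h1
    rw [← map_pow, hπ1, memTor] at h1
    obtain ⟨_, m, hm, h2⟩ := h1
    rw [hπ1, memTor]
    exact ⟨ha, n * m, mul_ne_zero hn hm, by rw [pow_mul, h2]⟩
  · exact gd_of_equiv (QuotientGroup.quotientQuotientEquivQuotient Tor B hTorB).symm h

/-- A virtually central step. -/
theorem gd_vc_step {H : Type u} [Group H] [Group.FG H] (M N C : Subgroup H) [M.Normal]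
    [N.Normal] (hCf : C.FiniteIndex) (hMN : M ≤ N) (hNC : N ≤ C) (T : Set H) (hT : T.Finite)
    (hTN : Subgroup.normalClosure T = N) (hcen : ⁅N, C⁆ ≤ M)
    (h : GraphicallyDiscrete (H ⧸ N)) : GraphicallyDiscrete (H ⧸ M) := by
  set π := QuotientGroup.mk' M with hπ
  have hTsub : T ⊆ N := by rw [← hTN]; exact Subgroup.subset_normalClosure
  set S : Set (H ⧸ M) := {x | ∃ t ∈ T, ∃ g : H, x = π (g * t * g⁻¹)} with hS
  have hfin : Finite (H ⧸ C) := Subgroup.finite_quotient_of_finiteIndex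
  have hcomm : ∀ n ∈ N, ∀ c ∈ C, π (c * n * c⁻¹) = π n := by
    intro n hn c hc
    have h1 := (mk_comm_iff (N := M) n c).2
      (hcen (Subgroup.commutator_mem_commutator hn hc))
    change π n * π c = π c * π n at h1
    rw [map_mul, map_mul, map_inv, ← h1, mul_inv_cancel_right]
  have hSf : S.Finite := by
    have h1 : (⋃ t ∈ T, Set.range (fun c : H ⧸ C => π (c.out * t * (c.out)⁻¹))).Finite :=
      hT.biUnion (fun t _ => Set.finite_range _)
    refine h1.subset ?_
    rintro _ ⟨t, ht, g, rfl⟩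
    simp only [Set.mem_iUnion]
    refine ⟨t, ht, (g : H ⧸ C), ?_⟩
    have h2 : ((g : H ⧸ C).out)⁻¹ * g ∈ C := by
      rw [← QuotientGroup.eq, QuotientGroup.out_eq']
    have h3 := hcomm t (hTsub ht) _ h2
    simp only
    have h4 : g * t * g⁻¹ = (g : H ⧸ C).out * ((((g : H ⧸ C).out)⁻¹ * g) * t *
        (((g : H ⧸ C).out)⁻¹ * g)⁻¹) * ((g : H ⧸ C).out)⁻¹ := by group
    rw [h4]
    simp only [map_mul, map_inv] at h3 ⊢
    rw [h3]
  have hcl : Subgroup.closure S = N.map π := by
    have h1 : S = π '' (Group.conjugatesOfSet T) := by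
      ext x
      constructor
      · rintro ⟨t, ht, g, rfl⟩
        exact ⟨g * t * g⁻¹, Group.mem_conjugatesOfSet_iff.2 ⟨t, ht, isConj_iff.2 ⟨g, rfl⟩⟩, rfl⟩
      · rintro ⟨y, hy, rfl⟩
        obtain ⟨t, ht, hc⟩ := Group.mem_conjugatesOfSet_iff.1 hy
        obtain ⟨g, rfl⟩ := isConj_iff.1 hc
        exact ⟨t, ht, g, rfl⟩
    rw [h1, ← MonoidHom.map_closure, ← hTN]
    rfl
  have hNn : (N.map π).Normal := inferInstance
  have hcn : (Subgroup.closure S).Normal := by rw [hcl]; exact hNn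
  refine gd_of_abelian (Group.fg_of_surjective (f := π) (QuotientGroup.mk'_surjective _)) S hSf
    ?_ ?_ ?_
  · rw [hcl]
    rintro _ ⟨a, ha, rfl⟩ _ ⟨b, hb, rfl⟩
    exact (mk_comm_iff (N := M) a b).2
      (hcen (Subgroup.commutator_mem_commutator ha (hNC hb)))
  · rintro g _ ⟨t, ht, k, rfl⟩
    obtain ⟨g, rfl⟩ := QuotientGroup.mk'_surjective _ g
    refine ⟨t, ht, g⁻¹ * k, ?_⟩
    simp only [map_mul, map_inv]
    change (π g)⁻¹ * _ * π g = _
    group
  · refine gd_of_equiv ?_ h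
    exact (QuotientGroup.quotientQuotientEquivQuotient M N hMN).symm.trans
      (QuotientGroup.quotientMulEquivOfEq hcl.symm)

/-- The commutator with a normal subgroup of finite index is finitely generated as a normal
subgroup. -/
theorem fin_comm_vc {Q : Type u} [Group Q] [Group.FG Q] (N C : Subgroup Q) [C.Normal]
    (hCf : C.FiniteIndex) (T : Set Q)
    (hT : T.Finite) (hTN : Subgroup.normalClosure T = N) :
    ∃ T' : Set Q, T'.Finite ∧ Subgroup.normalClosure T' = ⁅N, C⁆ := by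
  have hCfg : Group.FG C := Subgroup.fg_of_index_ne_zero C
  obtain ⟨X, hX, hXf⟩ := (Subgroup.fg_iff C).1 ((Group.fg_iff_subgroup_fg C).1 hCfg)
  have hNn : N.Normal := by rw [← hTN]; infer_instance
  have hXC : X ⊆ C := by rw [← hX]; exact Subgroup.subset_closure
  refine ⟨(fun p : Q × Q => ⁅p.1, p.2⁆) '' (T ×ˢ X),
    (hT.prod hXf).image _, le_antisymm ?_ ?_⟩
  · refine Subgroup.normalClosure_le_normal ?_
    rintro _ ⟨⟨t, x⟩, ⟨ht, hx⟩, rfl⟩
    exact Subgroup.commutator_mem_commutator (hTN.le (Subgroup.subset_normalClosure ht))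
      (hXC hx)
  · set R := Subgroup.normalClosure ((fun p : Q × Q => ⁅p.1, p.2⁆) '' (T ×ˢ X))
    have hCn : (C.map (QuotientGroup.mk' R)).Normal := inferInstance
    have hZn : (Subgroup.centralizer ((C.map (QuotientGroup.mk' R) : Subgroup (Q ⧸ R)) :
      Set (Q ⧸ R))).Normal := inferInstance
    have h1 : T ⊆ (Subgroup.centralizer ((C.map (QuotientGroup.mk' R) : Subgroup (Q ⧸ R)) :
      Set (Q ⧸ R))).comap (QuotientGroup.mk' R) := by
      intro t ht
      have h2 : Subgroup.closure X ≤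
          (Subgroup.centralizer {QuotientGroup.mk' R t}).comap (QuotientGroup.mk' R) := by
        rw [Subgroup.closure_le]
        intro x hx
        change QuotientGroup.mk' R x ∈ Subgroup.centralizer {QuotientGroup.mk' R t}
        rw [Subgroup.mem_centralizer_iff]
        rintro _ rfl
        exact (mk_comm_iff t x).2 (Subgroup.subset_normalClosure ⟨(t, x), ⟨ht, hx⟩, rfl⟩)
      rw [hX] at h2
      change QuotientGroup.mk' R t ∈ Subgroup.centralizer _
      rw [Subgroup.mem_centralizer_iff]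
      rintro _ ⟨y, hy, rfl⟩
      have h3 := h2 hy
      rw [Subgroup.mem_comap, Subgroup.mem_centralizer_iff] at h3
      exact (h3 _ rfl).symm
    have h2 := Subgroup.normalClosure_le_normal h1
    rw [hTN] at h2
    rw [Subgroup.commutator_le]
    intro a ha b hb
    have h3 := h2 ha
    rw [Subgroup.mem_comap, Subgroup.mem_centralizer_iff] at h3
    exact (mk_comm_iff a b).1 (h3 _ ⟨b, hb, rfl⟩).symm

/-- Chains with finite or virtually central factors. -/
theorem gd_vc_chain {H : Type u} [Group H] [Group.FG H] (k : ℕ) :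
    ∀ (N : ℕ → Subgroup H) [∀ i, (N i).Normal], N 0 = ⊥ → (∀ i < k, N i ≤ N (i + 1)) →
    (∀ i < k, (N i).relIndex (N (i + 1)) ≠ 0 ∨
      ∃ C : Subgroup H, C.FiniteIndex ∧ N (i + 1) ≤ C ∧ ⁅N (i + 1), C⁆ ≤ N i) →
    ∀ T : Set H, T.Finite → Subgroup.normalClosure T = N k →
    GraphicallyDiscrete (H ⧸ N k) → GraphicallyDiscrete H := by
  induction k with
  | zero =>
    intro N _ h0 _ _ T _ _ h
    refine gd_of_equiv ?_ h
    exact (QuotientGroup.quotientMulEquivOfEq h0).trans (QuotientGroup.quotientBot (G := H))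
  | succ k ih =>
    intro N _ h0 hmono hstep T hT hTN h
    have hk := hmono k (Nat.lt_succ_self k)
    rcases hstep k (Nat.lt_succ_self k) with hf | ⟨C₀, hC₀f, hNC₀, hc₀⟩
    · obtain ⟨T', hT', hTM⟩ := fin_rel (N k) (N (k + 1)) hk hf T hT hTN
      exact ih N h0 (fun i hi => hmono i (Nat.lt_succ_of_lt hi))
        (fun i hi => hstep i (Nat.lt_succ_of_lt hi)) T' hT' hTM
        (gd_fin_step (N k) (N (k + 1)) hk hf h)
    · set C := C₀.normalCore with hC
      have hCf : C.FiniteIndex := inferInstance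
      have hNC : N (k + 1) ≤ C := (Subgroup.normal_le_normalCore).2 hNC₀
      have hc : ⁅N (k + 1), C⁆ ≤ N k :=
        (Subgroup.commutator_mono le_rfl (Subgroup.normalCore_le C₀)).trans hc₀
      obtain ⟨T', hT', hTM⟩ := fin_comm_vc (N (k + 1)) C hCf T hT hTN
      set M := ⁅N (k + 1), C⁆ with hM
      have hMn : M.Normal := inferInstance
      have hNn : ∀ i, (N i ⊓ M).Normal := fun i => inferInstance
      have hkM : N k ⊓ M = M := inf_eq_right.2 hc
      refine @ih (fun i => N i ⊓ M) hNn (by rw [h0]; exact bot_inf_eq M)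
        (fun i hi => inf_le_inf_right M (hmono i (Nat.lt_succ_of_lt hi))) ?_ T' hT'
        (hTM.trans hkM.symm) ?_
      · intro i hi
        rcases hstep i (Nat.lt_succ_of_lt hi) with h1 | ⟨D, hDf, hND, h1⟩
        · left
          refine Subgroup.relIndex_inf_ne_zero ?_ ?_
          · exact fun h2 => h1 (Subgroup.relIndex_eq_zero_of_le_right inf_le_left h2)
          · rw [Subgroup.relIndex_eq_one.2 inf_le_right]
            exact one_ne_zero
        · right
          refine ⟨D, hDf, inf_le_left.trans hND, le_inf ?_ ?_⟩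
          · exact (Subgroup.commutator_mono inf_le_left le_rfl).trans h1
          · exact (Subgroup.commutator_mono inf_le_right le_top).trans
              (Subgroup.commutator_le_left M ⊤)
      · refine gd_of_equiv (QuotientGroup.quotientMulEquivOfEq hkM.symm) ?_
        exact gd_vc_step M (N (k + 1)) C hCf (hc.trans hk) hNC T hT hTN le_rfl h

end Pool.Agent.Y548.GD
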